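import Pool.Agent.H66.IQ.TD

/-!
# Board iq_modules (MP_0f8dca_lc), row DTF: a decision tree is a leaf
-/

set_option autoImplicit false

open Finset Pool.Agent.H66.IQ Pool.Agent.H68.AC

namespace Pool.Agent.H1.IQ

section

variable {V : Type}

open Classical in
/-- the variables which are read by a decision tree -/
private noncomputable def dtf_q (y : V → Bool) : DT V → Finset V
  | .leaf _ => ∅
  | .node v l r => insert v (cond (y v) (dtf_q y r) (dtf_q y l))

private theorem dtf_card (y : V → Bool) (T : DT V) : (dtf_q y T).card ≤ T.depth := by
  classical
  induction T with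
  | leaf b => simp [dtf_q, DT.depth]
  | node v l r ihl ihr =>
    unfold dtf_q DT.depth
    cases hy : y v with
    | false =>
      simp only [cond_false]
      refine (card_insert_le _ _).trans ?_
      have := le_max_left l.depth r.depth
      omega
    | true =>
      simp only [cond_true]
      refine (card_insert_le _ _).trans ?_
      have := le_max_right l.depth r.depth
      omega

private theorem dtf_path (y y' : V → Bool) (T : DT V) (h : ∀ v ∈ dtf_q y T, y' v = y v) :
    T.eval y' = T.eval y ∧ dtf_q y' T = dtf_q y T := by
  classical
  induction T with
  | leaf b => exact ⟨rfl, rfl⟩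
  | node v l r ihl ihr =>
    have h0 : y' v = y v := h v (by
      unfold dtf_q
      exact mem_insert_self _ _)
    cases hy : y v with
    | false =>
      have h1 := ihl (fun w hw => h w (by
        unfold dtf_q
        rw [hy, cond_false]
        exact mem_insert_of_mem hw))
      unfold DT.eval dtf_q
      rw [h0, hy, cond_false, cond_false, cond_false, cond_false]
      exact ⟨h1.1, by rw [h1.2]⟩
    | true =>
      have h1 := ihr (fun w hw => h w (by
        unfold dtf_q
        rw [hy, cond_true]
        exact mem_insert_of_mem hw))
      unfold DT.eval dtf_q
      rw [h0, hy, cond_true, cond_true, cond_true, cond_true]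
      exact ⟨h1.1, by rw [h1.2]⟩

end

/-- DTF: a decision tree is a leaf. -/
theorem pf_DTF : T_DTF := by
  intro V T
  exact ⟨⟨fun y => T.eval y, fun y => dtf_q y T, fun y y' h => dtf_path y y' T h⟩,
    fun y => rfl, fun y => dtf_card y T⟩

end Pool.Agent.H1.IQ
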