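import Pool.Agent.H66.IQ.TD

/-!
# Board iq_modules, row HVY (copy of the file of helper10, new leaves)
-/

set_option autoImplicit false

namespace Pool.Agent.H1.IQ

open Finset Pool.Agent.H66.IQ
open Pool.Agent.H66.IP (smx gw fp dd c4 tht)

namespace HVY

variable {V : Type} [DecidableEq V]

theorem fp_fp (x : V) (y : V → Bool) : fp x (fp x y) = y := by
  unfold fp
  rw [Function.update_self, Bool.not_not, Function.update_idem, Function.update_eq_self]

theorem fp_comm {x z : V} (h : x ≠ z) (y : V → Bool) : fp x (fp z y) = fp z (fp x y) := by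
  unfold fp
  rw [Function.update_of_ne h, Function.update_of_ne h.symm, Function.update_comm h]

theorem dd_comm {x z : V} (h : x ≠ z) (F : (V → Bool) → ℝ) (y : V → Bool) :
    dd x z F y = dd z x F y := by
  unfold dd
  rw [fp_comm h]
  ring

theorem c4_comm {x z : V} (h : x ≠ z) (F : (V → Bool) → ℝ) (y : V → Bool) :
    c4 x z F y = c4 z x F y := by
  unfold c4
  rw [fp_comm h]
  ring

theorem own_comm (β : ℝ) (x z : V) (t : Tr V) (y : V → Bool) :
    t.own β x z y = t.own β z x y := by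
  unfold Tr.own
  ring

theorem rr_comm (β : ℝ) (x z : V) (t : Tr V) (y : V → Bool) :
    t.rr β x z y = t.rr β z x y := by
  induction t with
  | lf a =>
    unfold Tr.rr
    exact own_comm β x z _ y
  | av l r ihl ihr =>
    unfold Tr.rr
    rw [ihl, ihr, own_comm]
  | ch l r ihl ihr =>
    unfold Tr.rr
    rw [ihl, ihr, own_comm]

theorem own_eq (β : ℝ) (x z : V) (t : Tr V) (y : V → Bool) :
    t.own β x z y = t.ms β x y * (t.ms β z y + t.ms β z (fp x y)) +
      t.ms β z y * (t.ms β x y + t.ms β x (fp z y)) := rfl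

theorem step [Fintype V] (hMSS : T_MSS) (hLIP : T_LIP) (hRSM : T_RSM) (hTRN : T_TRN)
    (β : ℝ) (k : ℕ) (t : Tr V) (y : V → Bool) (x z : V) (hβ : 1 ≤ β) (hk : 1 ≤ k)
    (hc : t.cc ≤ k) (hxz : x ≠ z) (h : tht β k ≤ t.ms β x y) :
    |dd x z (t.sv β) y| ≤ 7 / tht β k * c4 x z (t.rr β x z) y := by
  have hβ0 : 0 < β := lt_of_lt_of_le one_pos hβ
  have hk0 : (0 : ℝ) < k := by exact_mod_cast hk
  have hθ : 0 < tht β k := by unfold tht; positivity
  obtain ⟨θ, hθd⟩ : ∃ θ, θ = tht β k := ⟨_, rfl⟩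
  have hm : ∀ v w, 0 ≤ t.ms β v w := fun v w => ((hMSS V β t w hβ0).1 v).1
  have hR : ∀ w, 0 ≤ t.own β x z w ∧ t.own β x z w ≤ t.rr β x z w := fun w =>
    (hRSM V β t w hβ0).1 x z
  have hL : ∀ w, t.sv β w - t.sv β (fp z w) ≤ t.ms β z w := by
    intro w
    have h1 := hLIP V β t w (fp z w) hβ0
    have h2 : univ.filter (fun v => w v ≠ fp z w v) = {z} := by
      ext v
      rw [mem_filter, mem_singleton]
      constructor
      · rintro ⟨-, hv⟩
        by_contra hne
        apply hv
        unfold fp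
        rw [Function.update_of_ne hne]
      · rintro rfl
        refine ⟨mem_univ _, ?_⟩
        unfold fp
        rw [Function.update_self]
        cases w v <;> simp
    rwa [h2, sum_singleton] at h1
  have hL2 : ∀ w, |t.sv β (fp z w) - t.sv β w| ≤ t.ms β z w + t.ms β z (fp z w) := by
    intro w
    have h1 := hL w
    have h2 := hL (fp z w)
    rw [fp_fp] at h2
    have h3 := hm z w
    have h4 := hm z (fp z w)
    rw [abs_le]
    constructor <;> linarith
  have hT := hTRN V β k t (fp x (fp z y)) x z hβ hk hc hxz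
  rw [fp_fp, ← hθd] at hT
  rw [← hθd] at h hθ ⊢
  have e1 : |dd x z (t.sv β) y| ≤ (t.ms β z (fp x y) + t.ms β z (fp x (fp z y))) +
      (t.ms β z y + t.ms β z (fp z y)) := by
    have h1 := hL2 (fp x y)
    have h2 := hL2 y
    rw [← fp_comm hxz] at h1
    have h3 : dd x z (t.sv β) y = (t.sv β (fp x (fp z y)) - t.sv β (fp x y)) -
        (t.sv β (fp z y) - t.sv β y) := by
      unfold dd
      ring
    rw [h3]
    exact (abs_sub _ _).trans (add_le_add h1 h2)
  have e2 : θ * (t.ms β z y + t.ms β z (fp x y)) ≤ t.rr β x z y := by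
    have h1 := (hR y).2
    rw [own_eq] at h1
    have h2 : 0 ≤ t.ms β z y * (t.ms β x y + t.ms β x (fp z y)) :=
      mul_nonneg (hm _ _) (add_nonneg (hm _ _) (hm _ _))
    have h3 : θ * (t.ms β z y + t.ms β z (fp x y)) ≤
        t.ms β x y * (t.ms β z y + t.ms β z (fp x y)) :=
      mul_le_mul_of_nonneg_right h (add_nonneg (hm _ _) (hm _ _))
    linarith
  have e3 : θ * t.ms β z (fp z y) ≤ t.rr β x z (fp z y) := by
    have h1 := (hR (fp z y)).2
    rw [own_eq, fp_fp] at h1
    have h2 : 0 ≤ t.ms β x (fp z y) * (t.ms β z (fp z y) + t.ms β z (fp x (fp z y))) :=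
      mul_nonneg (hm _ _) (add_nonneg (hm _ _) (hm _ _))
    have h3 : θ * t.ms β z (fp z y) ≤ t.ms β x y * t.ms β z (fp z y) :=
      mul_le_mul_of_nonneg_right h (hm _ _)
    have h4 : 0 ≤ t.ms β z (fp z y) * t.ms β x (fp z y) := mul_nonneg (hm _ _) (hm _ _)
    nlinarith
  have e4 : θ * t.ms β z (fp x (fp z y)) ≤ 3 * (θ * t.ms β z (fp z y) +
      (t.rr β x z (fp x (fp z y)) + t.rr β x z (fp z y))) := by
    have h1 := mul_le_mul_of_nonneg_left hT hθ.le
    have h2 : θ * (3 * (t.ms β z (fp z y) +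
        (t.rr β x z (fp x (fp z y)) + t.rr β x z (fp z y)) / θ)) =
        3 * (θ * t.ms β z (fp z y) +
          (t.rr β x z (fp x (fp z y)) + t.rr β x z (fp z y))) := by
      field_simp
    rwa [h2] at h1
  have r0 := (hR y).1.trans (hR y).2
  have r1 := (hR (fp x y)).1.trans (hR (fp x y)).2
  have r2 := (hR (fp z y)).1.trans (hR (fp z y)).2
  have r3 := (hR (fp x (fp z y))).1.trans (hR (fp x (fp z y))).2
  rw [div_mul_eq_mul_div, le_div_iff₀ hθ, mul_comm]
  have e5 := mul_le_mul_of_nonneg_left e1 hθ.le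
  refine e5.trans ?_
  unfold c4
  nlinarith

end HVY

open HVY in
theorem pf_HVY (hMSS : T_MSS) (hLIP : T_LIP) (hRSM : T_RSM) (hTRN : T_TRN) : T_HVY := by
  intro V _ _ β k t y x z hβ hk hc hxz h
  rcases h with h | h
  · exact step hMSS hLIP hRSM hTRN β k t y x z hβ hk hc hxz h
  · rw [dd_comm hxz, c4_comm hxz]
    have h1 := step hMSS hLIP hRSM hTRN β k t y z x hβ hk hc hxz.symm h
    have h2 : t.rr β x z = t.rr β z x := by
      funext w
      exact rr_comm β x z t w
    rw [h2]
    exact h1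

end Pool.Agent.H1.IQ
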