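import Pool.Agent.H66.IQ.TD

/-!
# Board iq_modules (MP_0f8dca_lc), row LIP (copy of the file of helper69, new leaves)
-/

set_option autoImplicit false

open Finset Pool.Agent.H66.IQ Pool.Agent.H6.NB
open Pool.Agent.H66.IP (smx gw T_SMA)

namespace Pool.Agent.H1.IQ

private theorem lip_leaf (V : Type) [Fintype V] [DecidableEq V] (β : ℝ) (a : Lf V)
    (y y' : V → Bool) : bi (a.f y) - bi (a.f y') ≤
      ∑ x ∈ univ.filter (fun x => y x ≠ y' x), (Tr.lf a).ms β x y := by
  classical
  have hnn : ∀ x ∈ univ.filter (fun x => y x ≠ y' x), 0 ≤ (Tr.lf a).ms β x y := by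
    intro x _
    unfold Tr.ms
    split_ifs
    · exact zero_le_one
    · exact le_rfl
  have hs := sum_nonneg hnn
  have h01 : ∀ b : Bool, 0 ≤ bi b ∧ bi b ≤ 1 := by
    intro b
    cases b <;> simp [bi]
  by_cases hb : a.f y = true
  · by_cases hb' : a.f y' = true
    · rw [hb, hb']
      linarith
    · have h3 : ∃ v, v ∈ a.Q y ∧ y' v ≠ y v := by
        by_contra hcon
        push Not at hcon
        exact hb' (((a.path y y' hcon).1).trans hb)
      obtain ⟨v, hv, hne⟩ := h3
      have hz : v ∈ univ.filter (fun x => y x ≠ y' x) := by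
        rw [mem_filter]
        exact ⟨mem_univ _, fun h => hne h.symm⟩
      have h2 : (Tr.lf a).ms β v y = 1 := by
        unfold Tr.ms
        rw [if_pos ⟨hb, hv⟩]
      have h4 := single_le_sum hnn hz
      have h5 := (h01 (a.f y)).2
      have h6 := (h01 (a.f y')).1
      linarith
  · have h1 : bi (a.f y) = 0 := by
      have : a.f y = false := by simpa using hb
      rw [this]
      simp [bi]
    have h6 := (h01 (a.f y')).1
    linarith

theorem pf_LIP (hSMA : T_SMA) : T_LIP := by
  intro V _ _ β t y y' hβ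
  induction t with
  | lf a =>
    unfold Tr.sv
    exact lip_leaf V β a y y'
  | av l r ihl ihr =>
    have h1 : ∑ x ∈ univ.filter (fun x => y x ≠ y' x), (Tr.av l r).ms β x y =
        ((∑ x ∈ univ.filter (fun x => y x ≠ y' x), l.ms β x y) +
          ∑ x ∈ univ.filter (fun x => y x ≠ y' x), r.ms β x y) / 2 := by
      rw [← sum_add_distrib, sum_div]
      exact sum_congr rfl fun x _ => by rw [Tr.ms]
    rw [h1]
    unfold Tr.sv
    linarith
  | ch l r ihl ihr =>
    have h1 : ∑ x ∈ univ.filter (fun x => y x ≠ y' x), (Tr.ch l r).ms β x y =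
        gw β (l.sv β y) (r.sv β y) * (∑ x ∈ univ.filter (fun x => y x ≠ y' x), l.ms β x y) +
          gw β (r.sv β y) (l.sv β y) *
            ∑ x ∈ univ.filter (fun x => y x ≠ y' x), r.ms β x y := by
      rw [mul_sum, mul_sum, ← sum_add_distrib]
      exact sum_congr rfl fun x _ => by rw [Tr.ms]
    have hsv : ∀ y, (Tr.ch l r).sv β y = smx β (l.sv β y) (r.sv β y) := fun y => by rw [Tr.sv]
    rw [h1, hsv, hsv]
    have h2 := (hSMA β hβ (l.sv β y) (r.sv β y)).2.2.2.2 (l.sv β y') (r.sv β y')
    have h3 := mul_le_mul_of_nonneg_left ihl (hSMA β hβ (l.sv β y) (r.sv β y)).2.1.1.le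
    have h4 := mul_le_mul_of_nonneg_left ihr (hSMA β hβ (r.sv β y) (l.sv β y)).2.1.1.le
    linarith

end Pool.Agent.H1.IQ
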